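import Pool.Agent.H38.PR.Defs

/-!
The lower bound for the number of the points `√2 (ρ ^ 3 W - Y)` in a multiplicatively syndetic set
(the statement `S_gamma` of `Pool.Agent.H38.PR.Defs`).
-/

open Finset

namespace Pool.Agent.H53.PR

open Pool.Agent.H38.PR

lemma s1_apply (z : O) : s1 z = (z.re : ℝ) + (z.im : ℝ) * √2 := rfl
lemma s2_apply (z : O) : s2 z = (z.re : ℝ) - (z.im : ℝ) * √2 := rfl

lemma r_lo : (1.4 : ℝ) < √2 := by
  rw [show (1.4 : ℝ) = √(1.4 ^ 2) by rw [Real.sqrt_sq (by norm_num)]]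
  exact Real.sqrt_lt_sqrt (by norm_num) (by norm_num)

lemma r_hi : √2 < (1.5 : ℝ) := by
  rw [show (1.5 : ℝ) = √(1.5 ^ 2) by rw [Real.sqrt_sq (by norm_num)]]
  exact Real.sqrt_lt_sqrt (by norm_num) (by norm_num)

lemma eq_of_s {a b : O} (h1 : s1 a = s1 b) (h2 : s2 a = s2 b) : a = b := by
  rw [s1_apply, s1_apply] at h1
  rw [s2_apply, s2_apply] at h2
  have h3 : (a.re : ℝ) = b.re := by linarith
  have h4 : ((a.im : ℝ) - b.im) * √2 = 0 := by linarith
  have h5 : (a.im : ℝ) = b.im := by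
    rcases mul_eq_zero.1 h4 with h | h
    · linarith
    · have := r_lo; rw [h] at this; norm_num at this
  exact Zsqrtd.ext (by exact_mod_cast h3) (by exact_mod_cast h5)

/-- Rounding. -/
lemma rounding (r1 r2 : ℝ) : ∃ t : O, |s1 t - r1| ≤ 2 ∧ |s2 t - r2| ≤ 2 := by
  refine ⟨⟨round ((r1 + r2) / 2), round ((r1 - r2) / (2 * √2))⟩, ?_, ?_⟩
  · have h1 := abs_sub_round ((r1 + r2) / 2)
    have h2 := abs_sub_round ((r1 - r2) / (2 * √2))
    have hr := r_lo
    have hr2 := r_hi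
    have e : (r1 - r2) / (2 * √2) * √2 = (r1 - r2) / 2 := by field_simp
    rw [abs_le] at h1 h2 ⊢
    rw [s1_apply]
    dsimp only
    constructor <;> nlinarith [h1.1, h1.2, h2.1, h2.2, mul_le_mul_of_nonneg_right h2.1 (by linarith : (0:ℝ) ≤ √2),
      mul_le_mul_of_nonneg_right h2.2 (by linarith : (0:ℝ) ≤ √2)]
  · have h1 := abs_sub_round ((r1 + r2) / 2)
    have h2 := abs_sub_round ((r1 - r2) / (2 * √2))
    have hr := r_lo
    have hr2 := r_hi
    have e : (r1 - r2) / (2 * √2) * √2 = (r1 - r2) / 2 := by field_simp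
    rw [abs_le] at h1 h2 ⊢
    rw [s2_apply]
    dsimp only
    constructor <;> nlinarith [h1.1, h1.2, h2.1, h2.2, mul_le_mul_of_nonneg_right h2.1 (by linarith : (0:ℝ) ≤ √2),
      mul_le_mul_of_nonneg_right h2.2 (by linarith : (0:ℝ) ≤ √2)]

lemma mem_Bx_iff {S : ℕ} {s : O} : s ∈ Bx S ↔ 0 ≤ s.re ∧ s.re < S ∧ 0 ≤ s.im ∧ s.im < S := by
  unfold Bx
  rw [Finset.mem_map]
  constructor
  · rintro ⟨⟨a, b⟩, hab, rfl⟩
    rw [Finset.mem_product, Finset.mem_range, Finset.mem_range] at hab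
    simp only [Function.Embedding.coeFn_mk]
    exact ⟨by positivity, by exact_mod_cast hab.1, by positivity, by exact_mod_cast hab.2⟩
  · rintro ⟨h1, h2, h3, h4⟩
    refine ⟨(s.re.toNat, s.im.toNat), ?_, ?_⟩
    · rw [Finset.mem_product, Finset.mem_range, Finset.mem_range]
      dsimp only
      constructor <;> omega
    · simp only [Function.Embedding.coeFn_mk]
      refine Zsqrtd.ext ?_ ?_
      · simp [h1]
      · simp [h3]

lemma card_Bx (S : ℕ) : (Bx S).card = S ^ 2 := by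
  unfold Bx
  rw [Finset.card_map, Finset.card_product, Finset.card_range, sq]

lemma mem_Bx {S : ℕ} (hS : 0 < S) {s : O} (h1 : |s1 s - S * (1 + √2) / 2| ≤ S / 4)
    (h2 : |s2 s - S * (1 - √2) / 2| ≤ S / 4) : s ∈ Bx S := by
  have hS' : (0 : ℝ) < S := by exact_mod_cast hS
  rw [s1_apply] at h1
  rw [s2_apply] at h2
  rw [abs_le] at h1 h2
  have hr := r_lo
  have hr2 := r_hi
  have a1 : (0 : ℝ) ≤ s.re := by linarith [h1.1, h2.1]
  have a2 : (s.re : ℝ) < S := by linarith [h1.2, h2.2]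
  have a3 : (0 : ℝ) ≤ s.im := by
    by_contra hc
    rw [not_le] at hc
    nlinarith [h1.1, h2.2]
  have a4 : (s.im : ℝ) < S := by
    by_contra hc
    rw [not_lt] at hc
    nlinarith [h1.2, h2.1]
  rw [mem_Bx_iff]
  exact ⟨by exact_mod_cast a1, by exact_mod_cast a2, by exact_mod_cast a3, by exact_mod_cast a4⟩

lemma Bx_bound {G : ℕ} {g : O} (h : g ∈ Bx G) : |s1 g| ≤ 2.5 * G ∧ |s2 g| ≤ 2.5 * G := by
  rw [mem_Bx_iff] at h
  obtain ⟨h1, h2, h3, h4⟩ := h
  have a1 : (0 : ℝ) ≤ g.re := by exact_mod_cast h1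
  have a2 : (g.re : ℝ) ≤ G := by exact_mod_cast h2.le
  have a3 : (0 : ℝ) ≤ g.im := by exact_mod_cast h3
  have a4 : (g.im : ℝ) ≤ G := by exact_mod_cast h4.le
  have hr := r_lo
  have hr2 := r_hi
  rw [s1_apply, s2_apply, abs_le, abs_le]
  refine ⟨⟨?_, ?_⟩, ?_, ?_⟩ <;> nlinarith

/-- The estimate for the rounded points. -/
lemma R_est {X L y c z δ D S : ℝ} (hX : X ≠ 0) (hL : |L - X| ≤ δ * |X|) (hδ : δ ≤ 1 / 100)
    (hδ0 : 0 ≤ δ) (hyc : |y + c| ≤ D * S) (hz : |z| ≤ S / 20) (hS : 0 ≤ S) (h1 : δ * D ≤ 1 / 80)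
    (h2 : 80 * D ≤ |X|) : |(X * (y + c + z) - (L - 1) * y + c) / L - c| ≤ S / 8 := by
  have hX' : 0 < |X| := abs_pos.2 hX
  have hLX : 99 / 100 * |X| ≤ |L| := by
    have h3 : |X| ≤ |L| + |L - X| := by
      have := abs_sub_abs_le_abs_sub X L
      rw [abs_sub_comm X L] at this
      linarith
    have h4 : δ * |X| ≤ 1 / 100 * |X| := mul_le_mul_of_nonneg_right hδ hX'.le
    linarith
  have hL' : 0 < |L| := by linarith
  have hL0 : L ≠ 0 := abs_pos.1 hL'
  have e : (X * (y + c + z) - (L - 1) * y + c) / L - c = ((X - L) * (y + c) + X * z + (y + c)) / L := by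
    field_simp
    ring
  rw [e, abs_div, div_le_iff₀ hL']
  have h5 : |(X - L) * (y + c) + X * z + (y + c)| ≤ δ * |X| * (D * S) + |X| * (S / 20) + D * S := by
    refine (abs_add_le _ _).trans (add_le_add ((abs_add_le _ _).trans (add_le_add ?_ ?_)) hyc)
    · rw [abs_mul, abs_sub_comm]
      exact mul_le_mul hL hyc (abs_nonneg _) (by positivity)
    · rw [abs_mul]
      exact mul_le_mul_of_nonneg_left hz hX'.le
  have h6 : δ * |X| * (D * S) ≤ 1 / 80 * (|X| * S) := by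
    have : δ * |X| * (D * S) = (δ * D) * (|X| * S) := by ring
    rw [this]
    exact mul_le_mul_of_nonneg_right h1 (by positivity)
  have h7 : D * S ≤ 1 / 80 * (|X| * S) := by
    have : D ≤ 1 / 80 * |X| := by linarith
    calc D * S ≤ (1 / 80 * |X|) * S := mul_le_mul_of_nonneg_right this hS
      _ = _ := by ring
  have h8 : S / 8 * |L| ≥ S / 8 * (99 / 100 * |X|) := mul_le_mul_of_nonneg_left hLX (by positivity)
  have h9 : 0 ≤ |X| * S := by positivity
  nlinarith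

lemma cube_est {P e ε δ : ℝ} (hP : 0 ≤ P) (he : |e| ≤ ε) (hε1 : ε ≤ 1) (hε : 7 * ε ≤ δ) :
    |(P * (1 + e)) ^ 3 - P ^ 3| ≤ δ * P ^ 3 := by
  have h0 : 0 ≤ ε := (abs_nonneg e).trans he
  have h1 : (P * (1 + e)) ^ 3 - P ^ 3 = P ^ 3 * (e * (3 + 3 * e + e ^ 2)) := by ring
  have h2 : |e * (3 + 3 * e + e ^ 2)| ≤ 7 * ε := by
    rw [abs_mul]
    have h3 : |3 + 3 * e + e ^ 2| ≤ 7 := by
      have h4 := abs_le.1 (he.trans hε1)
      rw [abs_le]
      constructor <;> nlinarith [h4.1, h4.2]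
    calc |e| * |3 + 3 * e + e ^ 2| ≤ ε * 7 := mul_le_mul he h3 (abs_nonneg _) h0
      _ = 7 * ε := by ring
  rw [h1, abs_mul, abs_of_nonneg (pow_nonneg hP 3), mul_comm δ]
  exact mul_le_mul_of_nonneg_left (h2.trans hε) (pow_nonneg hP 3)

lemma root3 {x : ℝ} (hx : 0 < x) : ∃ a : ℝ, 0 < a ∧ a ^ 3 = x := by
  refine ⟨x ^ ((1 : ℝ) / 3), Real.rpow_pos_of_pos hx _, ?_⟩
  rw [← Real.rpow_natCast, ← Real.rpow_mul hx.le]
  norm_num

end Pool.Agent.H53.PR
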