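import Pool.Agent.H53.PR.Gamma

open Finset

namespace Pool.Agent.H53.PR

open Pool.Agent.H38.PR

/-- The choice of `μ`. -/
lemma choice (q : O) (hq : Pos q) (N : ℕ) {δ : ℝ} (hδ : 0 < δ) (f : O) (hf : Pos f) :
    ∀ᶠ M : ℕ in Filter.atTop, ∃ m : O, ∀ v < N,
      0 < s1 (1 + q * (m + (v : O))) ∧ s2 (1 + q * (m + (v : O))) < 0 ∧
      |s1 ((1 + q * (m + (v : O))) ^ 3) - √2 * M ^ 3 * s1 f| ≤ δ * |√2 * M ^ 3 * s1 f| ∧
      |s2 ((1 + q * (m + (v : O))) ^ 3) - (-(√2 * M ^ 3 * s2 f))| ≤ δ * |-(√2 * M ^ 3 * s2 f)| := by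
  obtain ⟨hq1, hq2⟩ := hq
  obtain ⟨hf1, hf2⟩ := hf
  have hr : (0 : ℝ) < √2 := by have := r_lo; linarith
  obtain ⟨a1, ha1, ha1'⟩ := root3 (mul_pos hr hf1)
  obtain ⟨a2, ha2, ha2'⟩ := root3 (mul_pos hr hf2)
  set ε : ℝ := min δ 1 / 7 with hε
  have hε0 : 0 < ε := by rw [hε]; positivity
  have hε1 : ε ≤ 1 / 7 := by rw [hε]; have := min_le_right δ 1; linarith
  have hε2 : 7 * ε ≤ δ := by rw [hε]; have := min_le_left δ 1; linarith
  have e1 := (tendsto_natCast_atTop_atTop (R := ℝ)).eventually_ge_atTop ((N + 2) * s1 q / (ε * a1))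
  have e2 := (tendsto_natCast_atTop_atTop (R := ℝ)).eventually_ge_atTop ((N + 2) * s2 q / (ε * a2))
  filter_upwards [e1, e2, Filter.eventually_ge_atTop 1] with M h1 h2 hM
  have hM' : (0 : ℝ) < M := by exact_mod_cast hM
  rw [div_le_iff₀ (by positivity)] at h1 h2
  obtain ⟨m, hm1, hm2⟩ := rounding ((M * a1 - 1) / s1 q) ((-(M * a2) - 1) / s2 q)
  refine ⟨m, fun v hv => ?_⟩
  have hv' : (v : ℝ) ≤ N := by exact_mod_cast hv.le
  have hv0 : (0 : ℝ) ≤ v := Nat.cast_nonneg v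
  set P1 : ℝ := M * a1 with hP1
  set P2 : ℝ := M * a2 with hP2
  have hP1' : 0 < P1 := by positivity
  have hP2' : 0 < P2 := by positivity
  have q1 : s1 (1 + q * (m + (v : O))) = P1 * (1 + s1 q * ((s1 m - (P1 - 1) / s1 q) + v) / P1) := by
    rw [map_add, map_mul, map_add, map_one, map_natCast]
    field_simp
    ring
  have q2 : s2 (1 + q * (m + (v : O))) = -(P2 * (1 + -(s2 q * ((s2 m - (-P2 - 1) / s2 q) + v)) / P2)) := by
    rw [map_add, map_mul, map_add, map_one, map_natCast]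
    field_simp
    ring
  have b1 : |s1 q * ((s1 m - (P1 - 1) / s1 q) + v) / P1| ≤ ε := by
    rw [abs_div, abs_mul, abs_of_pos hq1, abs_of_pos hP1', div_le_iff₀ hP1']
    have h3 : |(s1 m - (P1 - 1) / s1 q) + v| ≤ N + 2 := by
      refine (abs_add_le _ _).trans ?_
      rw [abs_of_nonneg hv0]
      linarith
    calc s1 q * |(s1 m - (P1 - 1) / s1 q) + v| ≤ s1 q * (N + 2) := mul_le_mul_of_nonneg_left h3 hq1.le
      _ = (N + 2) * s1 q := by ring
      _ ≤ M * (ε * a1) := h1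
      _ = ε * P1 := by rw [hP1]; ring
  have b2 : |-(s2 q * ((s2 m - (-P2 - 1) / s2 q) + v)) / P2| ≤ ε := by
    rw [abs_div, abs_neg, abs_mul, abs_of_pos hq2, abs_of_pos hP2', div_le_iff₀ hP2']
    have h3 : |(s2 m - (-P2 - 1) / s2 q) + v| ≤ N + 2 := by
      refine (abs_add_le _ _).trans ?_
      rw [abs_of_nonneg hv0]
      linarith
    calc s2 q * |(s2 m - (-P2 - 1) / s2 q) + v| ≤ s2 q * (N + 2) := mul_le_mul_of_nonneg_left h3 hq2.le
      _ = (N + 2) * s2 q := by ring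
      _ ≤ M * (ε * a2) := h2
      _ = ε * P2 := by rw [hP2]; ring
  have c1 : P1 ^ 3 = √2 * M ^ 3 * s1 f := by
    rw [hP1, mul_pow, ha1']; ring
  have c2 : P2 ^ 3 = √2 * M ^ 3 * s2 f := by
    rw [hP2, mul_pow, ha2']; ring
  refine ⟨?_, ?_, ?_, ?_⟩
  · rw [q1]
    have := (abs_le.1 b1).1
    exact mul_pos hP1' (by linarith)
  · rw [q2]
    have := (abs_le.1 b2).1
    exact neg_neg_of_pos (mul_pos hP2' (by linarith))
  · rw [map_pow, q1, ← c1, abs_of_pos (pow_pos hP1' 3)]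
    exact cube_est hP1'.le b1 (by linarith) hε2
  · rw [map_pow, q2, ← c2, abs_neg, abs_of_pos (pow_pos hP2' 3)]
    have h3 := cube_est hP2'.le b2 (by linarith) hε2
    have h4 : ∀ A B : ℝ, (-A) ^ 3 - -B = -(A ^ 3 - B) := by intro A B; ring
    rw [h4, abs_neg]
    exact h3

lemma cube_inj {a b : O} (h : a ^ 3 = b ^ 3) : a = b := by
  have key : ∀ x y : ℝ, x ^ 3 = y ^ 3 → x = y := fun x y hxy =>
    (Odd.strictMono_pow (by decide : Odd 3)).injective hxy
  refine eq_of_s (key _ _ ?_) (key _ _ ?_)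
  · rw [← map_pow, ← map_pow, h]
  · rw [← map_pow, ← map_pow, h]

lemma ind_nonneg (T : Set O) (x : O) : 0 ≤ ind T x := by
  classical
  unfold ind
  split_ifs <;> norm_num

lemma ind_one {T : Set O} {x : O} (h : x ∈ T) : ind T x = 1 := by
  classical
  unfold ind
  rw [if_pos h]

/-- Counting. -/
lemma count {T : Set O} {f q lam t₁ η₀ : O} {S B : ℕ} (hS : 0 < S) (hf : Pos f) (Gd : Finset O) (t0 : O → O)
    (hin : ∀ g ∈ Gd, ∀ j ∈ Bx B, t0 g + j ∈ Bx S ∧ lam * (t0 g + j) + t₁ - f * (η₀ + g) ∈ Bx S)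
    (hT : ∀ g ∈ Gd, f * (rt * q * (η₀ + g)) ∈ T) :
    ((Gd.card * B ^ 2 : ℕ) : ℝ) ≤ E2 S (fun s t => ind T (rt * q * (lam * s + t₁ - t))) * (S : ℝ) ^ 4 := by
  classical
  have hS' : (S : ℝ) ≠ 0 := by exact_mod_cast hS.ne'
  have h1 : E2 S (fun s t => ind T (rt * q * (lam * s + t₁ - t))) * (S : ℝ) ^ 4
      = ∑ p ∈ Bx S ×ˢ Bx S, ind T (rt * q * (lam * p.1 + t₁ - p.2)) := by
    unfold E2 av
    rw [Finset.sum_product, ← Finset.sum_div]
    field_simp
  rw [h1]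
  let e : O × O → O × O := fun p => (t0 p.1 + p.2, lam * (t0 p.1 + p.2) + t₁ - f * (η₀ + p.1))
  have hinj : Set.InjOn e (Gd ×ˢ Bx B : Finset (O × O)) := by
    rintro ⟨g, j⟩ _ ⟨g', j'⟩ _ h
    simp only [e, Prod.mk.injEq] at h
    obtain ⟨ha, hb⟩ := h
    rw [ha] at hb
    have h2 : f * (η₀ + g) = f * (η₀ + g') := by
      have := sub_right_inj.1 hb
      exact this
    have h3 : g = g' := by
      refine eq_of_s ?_ ?_
      · have := congrArg s1 h2
        rw [map_mul, map_mul, map_add, map_add] at this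
        have := mul_left_cancel₀ hf.1.ne' this
        linarith
      · have := congrArg s2 h2
        rw [map_mul, map_mul, map_add, map_add] at this
        have := mul_left_cancel₀ hf.2.ne' this
        linarith
    subst h3
    rw [add_right_inj] at ha
    rw [ha]
  have h2 : ((Gd.card * B ^ 2 : ℕ) : ℝ) = ((Gd ×ˢ Bx B).image e).card := by
    rw [Finset.card_image_of_injOn hinj, Finset.card_product, card_Bx]
  rw [h2, Finset.card_eq_sum_ones, Nat.cast_sum]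
  refine le_trans (Finset.sum_le_sum (g := fun p : O × O => ind T (rt * q * (lam * p.1 + t₁ - p.2))) ?_)
    (Finset.sum_le_sum_of_subset_of_nonneg ?_ fun _ _ _ => ind_nonneg _ _)
  · intro p hp
    obtain ⟨⟨g, j⟩, hgj, rfl⟩ := Finset.mem_image.1 hp
    rw [Finset.mem_product] at hgj
    dsimp only [e]
    rw [ind_one]
    · simp
    · have := hT g hgj.1
      have h3 : rt * q * (lam * (t0 g + j) + t₁ - (lam * (t0 g + j) + t₁ - f * (η₀ + g)))
          = f * (rt * q * (η₀ + g)) := by ring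
      rw [h3]
      exact this
  · intro p hp
    obtain ⟨⟨g, j⟩, hgj, rfl⟩ := Finset.mem_image.1 hp
    rw [Finset.mem_product] at hgj ⊢
    exact hin g hgj.1 j hgj.2

end Pool.Agent.H53.PR
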