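import Pool.Agent.H53.PR.Gamma2

open Finset

namespace Pool.Agent.H53.PR

open Pool.Agent.H38.PR

/-- The estimates at one real place. -/
lemma place (σ : O →+* ℝ) {f η lam t₁ t0 j : O} {X y c z δ D S Lm B : ℝ} (hX : X ≠ 0)
    (hL : |σ lam - X| ≤ δ * |X|) (hδ : δ ≤ 1 / 100) (hδ0 : 0 ≤ δ) (hyc : |y + c| ≤ D * S) (hz : |z| ≤ S / 20)
    (h1 : δ * D ≤ 1 / 80) (h2 : 80 * D ≤ |X|)
    (hη : X * (y + c + z) = σ f * σ η) (ht : σ t₁ = (σ lam - 1) * y)
    (ht0 : |σ t0 - (σ f * σ η - σ t₁ + c) / σ lam| ≤ 2) (hj : |σ j| ≤ 2.5 * B) (hB0 : 0 ≤ B)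
    (hB : B * (20 * Lm) ≤ S) (hLm : |σ lam| ≤ Lm) (hLm10 : 10 ≤ Lm) (hS : 40 * Lm + 200 ≤ S) :
    |σ (t0 + j) - c| ≤ S / 4 ∧ |σ (lam * (t0 + j) + t₁ - f * η) - c| ≤ S / 4 := by
  have hS0 : 0 ≤ S := by linarith
  have hR := R_est hX hL hδ hδ0 hyc hz hS0 h1 h2
  rw [hη, ← ht] at hR
  set R : ℝ := (σ f * σ η - σ t₁ + c) / σ lam with hRdef
  have hX' : 0 < |X| := abs_pos.2 hX
  have hL0 : σ lam ≠ 0 := by
    intro h
    rw [h, zero_sub, abs_neg] at hL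
    nlinarith
  have hRm : σ lam * R = σ f * σ η - σ t₁ + c := by
    rw [hRdef]; field_simp
  have hB2 : 2.5 * B ≤ S / 80 := by nlinarith
  constructor
  · rw [map_add]
    have e : σ t0 + σ j - c = (σ t0 - R) + (R - c) + σ j := by ring
    rw [e]
    have := abs_add_le ((σ t0 - R) + (R - c)) (σ j)
    have h3 := abs_add_le (σ t0 - R) (R - c)
    linarith
  · have e : σ (lam * (t0 + j) + t₁ - f * η) - c = σ lam * (σ t0 - R) + σ lam * σ j := by
      rw [map_sub, map_add, map_mul, map_mul, map_add]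
      linear_combination hRm
    rw [e]
    have h3 := abs_add_le (σ lam * (σ t0 - R)) (σ lam * σ j)
    rw [abs_mul, abs_mul] at h3
    have h4 : |σ lam| * |σ t0 - R| ≤ Lm * 2 := mul_le_mul hLm ht0 (abs_nonneg _) (by linarith)
    have h5 : |σ lam| * |σ j| ≤ Lm * (2.5 * B) := mul_le_mul hLm hj (abs_nonneg _) (by linarith)
    nlinarith

lemma s1_rt : s1 rt = √2 := by
  rw [s1_apply]; simp [rt]

lemma s2_rt : s2 rt = -√2 := by
  rw [s2_apply]; simp [rt]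

lemma q_tau (q μ y : O) : q * tau q μ y = ((1 + q * μ) ^ 3 - 1) * y := by
  unfold tau; ring

theorem gamma : S_gamma := by
  classical
  intro F hF
  have hrlo := r_lo
  have hrhi := r_hi
  obtain ⟨C0, hC10, hC0⟩ : ∃ C0 : ℕ, 10 ≤ C0 ∧ ∀ f ∈ F, 3 * s1 f ≤ C0 ∧ 3 * s2 f ≤ C0 := by
    refine ⟨(∑ f ∈ F, ⌈3 * (s1 f + s2 f)⌉₊) + 10, by omega, fun f hf => ?_⟩
    have h1 : ⌈3 * (s1 f + s2 f)⌉₊ ≤ ∑ f ∈ F, ⌈3 * (s1 f + s2 f)⌉₊ :=
      Finset.single_le_sum (f := fun f => ⌈3 * (s1 f + s2 f)⌉₊) (fun _ _ => Nat.zero_le _) hf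
    have h2 : (⌈3 * (s1 f + s2 f)⌉₊ : ℝ) ≤ (∑ f ∈ F, ⌈3 * (s1 f + s2 f)⌉₊ : ℕ) := by exact_mod_cast h1
    have h3 := Nat.le_ceil (3 * (s1 f + s2 f))
    have h4 := (hF f hf).1
    have h5 := (hF f hf).2
    push_cast at h2 ⊢
    constructor <;> linarith
  have hC10' : (10 : ℝ) ≤ C0 := by exact_mod_cast hC10
  refine ⟨1 / ((F.card + 1) * (6400 * C0) ^ 2), by positivity, ?_⟩
  intro q hq A N
  have hq1 := hq.1
  have hq2 := hq.2
  set D : ℝ := |A| / s1 q + |A| / s2 q + 2 with hD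
  have hD2 : 2 ≤ D := by
    have : 0 ≤ |A| / s1 q := by positivity
    have : 0 ≤ |A| / s2 q := by positivity
    linarith
  set δ : ℝ := min (1 / 100) (1 / (80 * D)) with hδ
  have hδ0 : 0 < δ := by
    rw [hδ]
    exact lt_min (by norm_num) (by positivity)
  have hδ1 : δ ≤ 1 / 100 := min_le_left _ _
  have hδ2 : δ * D ≤ 1 / 80 := by
    have h1 : δ ≤ 1 / (80 * D) := min_le_right _ _
    calc δ * D ≤ 1 / (80 * D) * D := mul_le_mul_of_nonneg_right h1 (by linarith)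
      _ = 1 / 80 := by field_simp
  have ev1 := (Filter.eventually_all_finset F).2 fun f hf => choice q hq N hδ0 f (hF f hf)
  have ev2 : ∀ᶠ M : ℕ in Filter.atTop, ∀ f ∈ F, 80 * D ≤ √2 * (M : ℝ) ^ 3 * s1 f ∧
      80 * D ≤ √2 * (M : ℝ) ^ 3 * s2 f := by
    rw [Filter.eventually_all_finset]
    intro f hf
    have hf1 := (hF f hf).1
    have hf2 := (hF f hf).2
    have e1 := (tendsto_natCast_atTop_atTop (R := ℝ)).eventually_ge_atTop (80 * D / s1 f)
    have e2 := (tendsto_natCast_atTop_atTop (R := ℝ)).eventually_ge_atTop (80 * D / s2 f)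
    filter_upwards [e1, e2, Filter.eventually_ge_atTop 1] with M h1 h2 hM
    have hM' : (1 : ℝ) ≤ M := by exact_mod_cast hM
    rw [div_le_iff₀ hf1] at h1
    rw [div_le_iff₀ hf2] at h2
    have h3 : (M : ℝ) ≤ √2 * (M : ℝ) ^ 3 := by
      have h4 : (M : ℝ) ≤ (M : ℝ) ^ 3 := by
        calc (M : ℝ) = (M : ℝ) ^ 1 := (pow_one _).symm
          _ ≤ (M : ℝ) ^ 3 := pow_le_pow_right₀ hM' (by norm_num)
      exact h4.trans (le_mul_of_one_le_left (by positivity) (by linarith))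
    constructor
    · exact h1.trans (mul_le_mul_of_nonneg_right h3 hf1.le)
    · exact h2.trans (mul_le_mul_of_nonneg_right h3 hf2.le)
  obtain ⟨M, hMc, hMe, hM1⟩ := (ev1.and (ev2.and (Filter.eventually_ge_atTop 1))).exists
  have hM' : (1 : ℝ) ≤ M := by exact_mod_cast hM1
  have hM3 : (1 : ℝ) ≤ (M : ℝ) ^ 3 := one_le_pow₀ hM'
  choose! m hm using hMc
  refine ⟨fun f v => m f + (v : O), fun f hf v hv => ⟨(hm f hf v hv).1, (hm f hf v hv).2.1⟩, ?_, ?_⟩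
  · intro f hf v hv v' hv' hne h
    have h1 := congrArg s1 (cube_inj h)
    dsimp only at h1
    rw [map_add, map_add, map_mul, map_mul, map_add, map_add, map_natCast, map_natCast] at h1
    have h2 : s1 q * (s1 (m f) + v) = s1 q * (s1 (m f) + v') := by linarith
    have h3 := mul_left_cancel₀ hq1.ne' h2
    apply hne
    have h4 : (v : ℝ) = v' := by linarith
    exact_mod_cast h4
  obtain ⟨Lm, hLm⟩ : ∃ Lm : ℕ, Lm = C0 * M ^ 3 := ⟨_, rfl⟩
  have hLmR : (Lm : ℝ) = C0 * (M : ℝ) ^ 3 := by rw [hLm]; push_cast; ring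
  have hLm10 : (10 : ℝ) ≤ Lm := by rw [hLmR]; exact hC10'.trans (le_mul_of_one_le_right (by linarith) hM3)
  refine ⟨40 * Lm + 200, ?_⟩
  intro S hS y hy1 hy2 hy3 hy4 T hT
  have hSR : 40 * (Lm : ℝ) + 200 ≤ S := by exact_mod_cast hS
  have hS0 : (0 : ℝ) < S := by linarith
  have hSpos : 0 < S := by exact_mod_cast hS0
  set K : ℝ := √2 * (M : ℝ) ^ 3 with hK
  have hM30 : (0 : ℝ) ≤ (M : ℝ) ^ 3 := by linarith
  have hK1 : 1.4 * (M : ℝ) ^ 3 ≤ K := mul_le_mul_of_nonneg_right (by linarith) hM30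
  have hK2 : K ≤ 1.5 * (M : ℝ) ^ 3 := mul_le_mul_of_nonneg_right (by linarith) hM30
  have hK0 : 0 < K := by linarith
  set y1 : ℝ := s1 y / s1 q with hy1d
  set y2 : ℝ := s2 y / s2 q with hy2d
  have hys1 : s1 y = y1 * s1 q := by rw [hy1d]; field_simp
  have hys2 : s2 y = y2 * s2 q := by rw [hy2d]; field_simp
  have hy1l : 10 * (S : ℝ) ≤ y1 := by rw [hy1d, le_div_iff₀ hq1]; exact hy1
  have hy2l : 10 * (S : ℝ) ≤ y2 := by rw [hy2d, le_div_iff₀ hq2]; exact hy2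
  have hAle : A * S ≤ |A| * S := mul_le_mul_of_nonneg_right (le_abs_self A) hS0.le
  have hy1u : y1 ≤ (D - 2) * S := by
    rw [hy1d, div_le_iff₀ hq1]
    have h1 : (D - 2) * S * s1 q = |A| * S + |A| / s2 q * S * s1 q := by
      rw [hD]; field_simp; ring
    rw [h1]
    have : 0 ≤ |A| / s2 q * S * s1 q := by positivity
    linarith
  have hy2u : y2 ≤ (D - 2) * S := by
    rw [hy2d, div_le_iff₀ hq2]
    have h1 : (D - 2) * S * s2 q = |A| * S + |A| / s1 q * S * s2 q := by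
      rw [hD]; field_simp; ring
    rw [h1]
    have : 0 ≤ |A| / s1 q * S * s2 q := by positivity
    linarith
  set c1 : ℝ := S * (1 + √2) / 2 with hc1
  set c2 : ℝ := S * (1 - √2) / 2 with hc2
  have hSr1 : (S : ℝ) * √2 ≤ S * 1.5 := mul_le_mul_of_nonneg_left (by linarith) hS0.le
  have hSr2 : (S : ℝ) * 1.4 ≤ S * √2 := mul_le_mul_of_nonneg_left (by linarith) hS0.le
  have hc1l : 0 ≤ c1 := by rw [hc1]; positivity
  have hc1u : c1 ≤ 2 * S := by rw [hc1]; linarith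
  have hc2l : -(S : ℝ) / 4 ≤ c2 := by rw [hc2]; linarith
  have hc2u : c2 ≤ 0 := by rw [hc2]; linarith
  have hyc1 : |y1 + c1| ≤ D * S := by
    rw [abs_of_nonneg (by linarith)]; linarith
  have hyc2 : |y2 + c2| ≤ D * S := by
    rw [abs_of_nonneg (by linarith)]; linarith
  obtain ⟨η₀, hη1, hη2⟩ := rounding (K * (y1 + c1)) (-(K * (y2 + c2)))
  obtain ⟨G, hGd⟩ : ∃ G : ℕ, G = M ^ 3 * S / 80 := ⟨_, rfl⟩
  have hGu : (G : ℝ) ≤ (M : ℝ) ^ 3 * S / 80 := by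
    rw [hGd]
    have := Nat.cast_div_le (α := ℝ) (m := M ^ 3 * S) (n := 80)
    push_cast at this
    exact this
  have hMS : (S : ℝ) ≤ (M : ℝ) ^ 3 * S := le_mul_of_one_le_left hS0.le hM3
  have hGl : (M : ℝ) ^ 3 * S / 160 ≤ G := by
    have h1 : M ^ 3 * S < (G + 1) * 80 := by
      rw [hGd]
      have := Nat.lt_div_mul_add (a := M ^ 3 * S) (b := 80) (by norm_num)
      omega
    have h2 : (M : ℝ) ^ 3 * S < (G + 1) * 80 := by exact_mod_cast h1
    linarith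
  -- the displacement
  have z1 : ∀ g ∈ Bx G, |s1 (η₀ + g) / K - (y1 + c1)| ≤ S / 20 := by
    intro g hg
    have h1 := (Bx_bound hg).1
    have h2 : s1 (η₀ + g) / K - (y1 + c1) = ((s1 η₀ - K * (y1 + c1)) + s1 g) / K := by
      rw [map_add]; field_simp; ring
    rw [h2, abs_div, abs_of_pos hK0, div_le_iff₀ hK0]
    have h3 := abs_add_le (s1 η₀ - K * (y1 + c1)) (s1 g)
    have h4 : (S : ℝ) / 20 * (1.4 * (M : ℝ) ^ 3) ≤ S / 20 * K := mul_le_mul_of_nonneg_left hK1 (by positivity)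
    linarith
  have z2 : ∀ g ∈ Bx G, |-(s2 (η₀ + g)) / K - (y2 + c2)| ≤ S / 20 := by
    intro g hg
    have h1 := (Bx_bound hg).2
    have h2 : -(s2 (η₀ + g)) / K - (y2 + c2) = -((s2 η₀ - -(K * (y2 + c2))) + s2 g) / K := by
      rw [map_add]; field_simp; ring
    rw [h2, abs_div, abs_neg, abs_of_pos hK0, div_le_iff₀ hK0]
    have h3 := abs_add_le (s2 η₀ - -(K * (y2 + c2))) (s2 g)
    have h4 : (S : ℝ) / 20 * (1.4 * (M : ℝ) ^ 3) ≤ S / 20 * K := mul_le_mul_of_nonneg_left hK1 (by positivity)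
    linarith
  have hpos : ∀ g ∈ Bx G, Pos (rt * q * (η₀ + g)) := by
    intro g hg
    have h1 := (abs_le.1 (z1 g hg)).1
    have h2 := (abs_le.1 (z2 g hg)).1
    have h3 : 0 < s1 (η₀ + g) / K := by linarith
    have h4 : 0 < -(s2 (η₀ + g)) / K := by linarith
    have h5 : 0 < s1 (η₀ + g) := by
      have := mul_pos h3 hK0
      rwa [div_mul_cancel₀ _ hK0.ne'] at this
    have h6 : 0 < -(s2 (η₀ + g)) := by
      have := mul_pos h4 hK0
      rwa [div_mul_cancel₀ _ hK0.ne'] at this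
    have hr0 : (0 : ℝ) < √2 := by linarith
    constructor
    · rw [map_mul, map_mul, s1_rt]
      positivity
    · rw [map_mul, map_mul, s2_rt]
      have : -√2 * s2 q * s2 (η₀ + g) = √2 * s2 q * -(s2 (η₀ + g)) := by ring
      rw [this]
      positivity
  -- pigeonhole
  obtain ⟨f, hf, hfc⟩ : ∃ f ∈ F, G ^ 2 ≤ F.card * ((Bx G).filter fun g => f * (rt * q * (η₀ + g)) ∈ T).card := by
    have h1 : Bx G ⊆ F.biUnion fun f => (Bx G).filter fun g => f * (rt * q * (η₀ + g)) ∈ T := by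
      intro g hg
      obtain ⟨f, hf, hfT⟩ := hT _ (hpos g hg)
      exact Finset.mem_biUnion.2 ⟨f, hf, Finset.mem_filter.2 ⟨hg, hfT⟩⟩
    have h2 := (Finset.card_le_card h1).trans Finset.card_biUnion_le
    have hne : F.Nonempty := by
      obtain ⟨f, hf, _⟩ := hT 1 ⟨by simp, by simp⟩
      exact ⟨f, hf⟩
    by_contra hcon
    push Not at hcon
    have h3 : F.card * ∑ f ∈ F, ((Bx G).filter fun g => f * (rt * q * (η₀ + g)) ∈ T).card < F.card * G ^ 2 := by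
      rw [Finset.mul_sum]
      calc ∑ f ∈ F, F.card * ((Bx G).filter fun g => f * (rt * q * (η₀ + g)) ∈ T).card
          < ∑ _f ∈ F, G ^ 2 := Finset.sum_lt_sum_of_nonempty hne hcon
        _ = F.card * G ^ 2 := by rw [Finset.sum_const, smul_eq_mul]
    rw [card_Bx] at h2
    exact absurd (Nat.mul_le_mul_left F.card h2) (not_le.2 h3)
  refine ⟨f, hf, fun v hv => ?_⟩
  obtain ⟨_, _, hl1, hl2⟩ := hm f hf v hv
  set lam : O := (1 + q * (m f + (v : O))) ^ 3 with hlam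
  set t₁ : O := tau q (m f + (v : O)) y with ht₁
  have hf1 := (hF f hf).1
  have hf2 := (hF f hf).2
  have hqt : q * t₁ = (lam - 1) * y := by rw [ht₁, hlam, q_tau]
  have ht1 : s1 t₁ = (s1 lam - 1) * y1 := by
    have := congrArg s1 hqt
    rw [map_mul, map_mul, map_sub, map_one, hys1] at this
    have h2 : s1 q * s1 t₁ = s1 q * ((s1 lam - 1) * y1) := by linarith
    exact mul_left_cancel₀ hq1.ne' h2
  have ht2 : s2 t₁ = (s2 lam - 1) * y2 := by
    have := congrArg s2 hqt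
    rw [map_mul, map_mul, map_sub, map_one, hys2] at this
    have h2 : s2 q * s2 t₁ = s2 q * ((s2 lam - 1) * y2) := by linarith
    exact mul_left_cancel₀ hq2.ne' h2
  have hX1 : 0 < K * s1 f := by positivity
  have hX2 : 0 < K * s2 f := by positivity
  have hb1 : |s1 lam| ≤ Lm := by
    have h1 := abs_sub_abs_le_abs_sub (s1 lam) (K * s1 f)
    have h2 := (hC0 f hf).1
    rw [abs_of_pos hX1] at hl1 h1
    have h3 : δ * (K * s1 f) ≤ 1 / 100 * (K * s1 f) := mul_le_mul_of_nonneg_right hδ1 hX1.le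
    have h4 : K * s1 f ≤ 1.5 * (M : ℝ) ^ 3 * s1 f := mul_le_mul_of_nonneg_right hK2 hf1.le
    rw [hLmR]
    have h5 : (3 * s1 f) * (M : ℝ) ^ 3 ≤ C0 * (M : ℝ) ^ 3 := mul_le_mul_of_nonneg_right h2 (by linarith)
    have h6 : 0 ≤ (M : ℝ) ^ 3 * s1 f := mul_nonneg hM30 hf1.le
    linarith
  have hb2 : |s2 lam| ≤ Lm := by
    have h1 := abs_sub_abs_le_abs_sub (s2 lam) (-(K * s2 f))
    have h2 := (hC0 f hf).2
    rw [abs_neg, abs_of_pos hX2] at h1 hl2
    have h3 : δ * (K * s2 f) ≤ 1 / 100 * (K * s2 f) := mul_le_mul_of_nonneg_right hδ1 hX2.le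
    have h4 : K * s2 f ≤ 1.5 * (M : ℝ) ^ 3 * s2 f := mul_le_mul_of_nonneg_right hK2 hf2.le
    rw [hLmR]
    have h5 : (3 * s2 f) * (M : ℝ) ^ 3 ≤ C0 * (M : ℝ) ^ 3 := mul_le_mul_of_nonneg_right h2 (by linarith)
    have h6 : 0 ≤ (M : ℝ) ^ 3 * s2 f := mul_nonneg hM30 hf2.le
    linarith
  obtain ⟨B, hBd⟩ : ∃ B : ℕ, B = S / (20 * Lm) := ⟨_, rfl⟩
  have hLmpos : 0 < Lm := by
    have : (0 : ℝ) < Lm := by linarith
    exact_mod_cast this
  have hBu : (B : ℝ) * (20 * Lm) ≤ S := by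
    have h1 : B * (20 * Lm) ≤ S := by rw [hBd]; exact Nat.div_mul_le_self _ _
    exact_mod_cast h1
  have hBl : (S : ℝ) / (40 * Lm) ≤ B := by
    have h1 : S < (B + 1) * (20 * Lm) := by
      rw [hBd, add_mul, one_mul]
      exact Nat.lt_div_mul_add (a := S) (b := 20 * Lm) (by omega)
    have h2 : (S : ℝ) < (B + 1) * (20 * Lm) := by exact_mod_cast h1
    rw [div_le_iff₀ (by positivity)]
    linarith
  choose t0 ht0 using fun g : O => rounding ((s1 f * s1 (η₀ + g) - s1 t₁ + c1) / s1 lam)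
    ((s2 f * s2 (η₀ + g) - s2 t₁ + c2) / s2 lam)
  have hcount := count (q := q) (lam := lam) (t₁ := t₁) (η₀ := η₀) (T := T) (B := B) hSpos (hF f hf)
    ((Bx G).filter fun g => f * (rt * q * (η₀ + g)) ∈ T) t0 (by
      intro g hg j hj
      rw [Finset.mem_filter] at hg
      have hj' := Bx_bound hj
      have p1 := place s1 (f := f) (η := η₀ + g) (lam := lam) (t₁ := t₁) (t0 := t0 g) (j := j)
        (X := K * s1 f) (y := y1) (c := c1) (z := s1 (η₀ + g) / K - (y1 + c1)) (δ := δ) (D := D) (S := S)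
        (Lm := Lm) (B := B) hX1.ne' hl1 hδ1 hδ0.le hyc1 (z1 g hg.1) hδ2
        (by rw [abs_of_pos hX1]; exact (hMe f hf).1) (by field_simp; ring) ht1 (ht0 g).1 hj'.1 (Nat.cast_nonneg _)
        hBu hb1 hLm10 hSR
      have p2 := place s2 (f := f) (η := η₀ + g) (lam := lam) (t₁ := t₁) (t0 := t0 g) (j := j)
        (X := -(K * s2 f)) (y := y2) (c := c2) (z := -(s2 (η₀ + g)) / K - (y2 + c2)) (δ := δ) (D := D) (S := S)
        (Lm := Lm) (B := B) (neg_ne_zero.2 hX2.ne') hl2 hδ1 hδ0.le hyc2 (z2 g hg.1) hδ2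
        (by rw [abs_neg, abs_of_pos hX2]; exact (hMe f hf).2) (by field_simp; ring) ht2 (ht0 g).2 hj'.2
        (Nat.cast_nonneg _) hBu hb2 hLm10 hSR
      exact ⟨mem_Bx hSpos p1.1 p2.1, mem_Bx hSpos p1.2 p2.2⟩)
    (by
      intro g hg
      rw [Finset.mem_filter] at hg
      exact hg.2)
  set E : ℝ := E2 S fun s t => ind T (rt * q * (lam * s + t₁ - t)) with hE
  set Gc : ℕ := ((Bx G).filter fun g => f * (rt * q * (η₀ + g)) ∈ T).card with hGc
  have hk : (0 : ℝ) < F.card := by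
    have : 0 < F.card := Finset.card_pos.2 ⟨f, hf⟩
    exact_mod_cast this
  have h1 : ((G : ℝ) ^ 2) * (B : ℝ) ^ 2 ≤ F.card * (E * S ^ 4) := by
    have h2 : (G : ℝ) ^ 2 ≤ F.card * Gc := by exact_mod_cast hfc
    push_cast at hcount
    calc ((G : ℝ) ^ 2) * (B : ℝ) ^ 2 ≤ (F.card * Gc) * (B : ℝ) ^ 2 := mul_le_mul_of_nonneg_right h2 (by positivity)
      _ = F.card * (Gc * (B : ℝ) ^ 2) := by ring
      _ ≤ F.card * (E * S ^ 4) := mul_le_mul_of_nonneg_left hcount hk.le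
  have h2 : ((M : ℝ) ^ 3 * S / 160) ^ 2 * (S / (40 * Lm)) ^ 2 ≤ (G : ℝ) ^ 2 * (B : ℝ) ^ 2 :=
    mul_le_mul (pow_le_pow_left₀ (by positivity) hGl 2) (pow_le_pow_left₀ (by positivity) hBl 2) (by positivity)
      (by positivity)
  have hC0pos : (0 : ℝ) < C0 := by linarith
  have h3 : ((M : ℝ) ^ 3 * S / 160) ^ 2 * (S / (40 * Lm)) ^ 2 = S ^ 4 / (6400 * C0) ^ 2 := by
    rw [hLmR]
    have : (M : ℝ) ^ 3 ≠ 0 := by positivity
    field_simp
    norm_num
  have h4 : (S : ℝ) ^ 4 / (6400 * C0) ^ 2 ≤ F.card * (E * S ^ 4) := by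
    rw [← h3]; exact h2.trans h1
  have hS4 : (0 : ℝ) < (S : ℝ) ^ 4 := by positivity
  have h5 : 1 / (6400 * (C0 : ℝ)) ^ 2 ≤ F.card * E := by
    have h6 : (S : ℝ) ^ 4 * (1 / (6400 * (C0 : ℝ)) ^ 2) ≤ (S : ℝ) ^ 4 * (F.card * E) := by
      calc (S : ℝ) ^ 4 * (1 / (6400 * (C0 : ℝ)) ^ 2) = (S : ℝ) ^ 4 / (6400 * C0) ^ 2 := by ring
        _ ≤ F.card * (E * S ^ 4) := h4
        _ = (S : ℝ) ^ 4 * (F.card * E) := by ring
    exact le_of_mul_le_mul_left h6 hS4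
  have hE0 : 0 ≤ E := by
    by_contra hneg
    rw [not_le] at hneg
    have : F.card * E < 0 := mul_neg_of_pos_of_neg hk hneg
    have : 0 < 1 / (6400 * (C0 : ℝ)) ^ 2 := by positivity
    linarith
  have h7 : 1 / (6400 * (C0 : ℝ)) ^ 2 ≤ E * (F.card + 1) := by linarith
  have hk1 : (0 : ℝ) < (F.card : ℝ) + 1 := by linarith
  have h8 : 1 / (((F.card : ℝ) + 1) * (6400 * C0) ^ 2) = 1 / (6400 * (C0 : ℝ)) ^ 2 / (F.card + 1) := by
    rw [div_div, mul_comm]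
  rw [h8]
  exact (div_le_iff₀ hk1).2 h7

end Pool.Agent.H53.PR
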